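import Pool.Agent.Lib.MP_d24c19_al.FR.Fin

set_option autoImplicit false

/-!
Artin groups all of whose irreducible `∞`-free standard parabolic subgroups are of type `A_n`,
affine `A_n` or `I_2(m)` are linear over `ℂ`, residually finite and Hopfian.
-/

namespace Pool.Agent.Results.MP_d24c19_al.LinearPathsCycles

/-- The Artin group of a Coxeter matrix `M` (the entry `0` of `M` stands for `∞`): for every pair
`i, j` with `M i j ≠ 0` the alternating words `i j i ...` and `j i j ...` of length `M i j` are equal. -/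
abbrev ArtinGroup {n : ℕ} (M : CoxeterMatrix (Fin n)) : Type :=
  PresentedGroup {r : FreeGroup (Fin n) | ∃ i j : Fin n, M.M i j ≠ 0 ∧
    r = ((List.range (M.M i j)).map
            (fun k => if Even k then FreeGroup.of i else FreeGroup.of j)).prod *
        (((List.range (M.M i j)).map
            (fun k => if Even k then FreeGroup.of j else FreeGroup.of i)).prod)⁻¹}

/-- Let `M` be a Coxeter matrix such that
(i) `m_rt = ∞` whenever `r, s, t` are distinct, `4 ≤ m_rs < ∞` and `3 ≤ m_st < ∞`;
(ii) if `m_rs = m_rt = m_ru = 3` with `s, t, u` distinct, then one of `m_st, m_tu, m_su` is `∞`.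
Then the Artin group of `M` embeds in some `GL_N(ℂ)`, is residually finite and Hopfian, and so are
its finitely generated subgroups. -/
theorem result (n : ℕ) (M : CoxeterMatrix (Fin n))
    (h1 : ∀ r s t : Fin n, r ≠ s → s ≠ t → r ≠ t → 4 ≤ M.M r s → 3 ≤ M.M s t → M.M r t = 0)
    (h2 : ∀ r s t u : Fin n, s ≠ t → t ≠ u → s ≠ u →
      M.M r s = 3 → M.M r t = 3 → M.M r u = 3 → M.M s t = 0 ∨ M.M t u = 0 ∨ M.M s u = 0) :
    (∃ (N : ℕ) (φ : ArtinGroup M →* Matrix.GeneralLinearGroup (Fin N) ℂ), Function.Injective φ) ∧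
    (∀ g : ArtinGroup M, g ≠ 1 →
      ∃ K : Subgroup (ArtinGroup M), K.Normal ∧ K.FiniteIndex ∧ g ∉ K) ∧
    (∀ f : ArtinGroup M →* ArtinGroup M, Function.Surjective f → Function.Injective f) ∧
    (∀ H : Subgroup (ArtinGroup M), H.FG → ∀ f : H →* H, Function.Surjective f →
      Function.Injective f) :=
  Pool.Agent.FR.main M ⟨h1, h2⟩

end Pool.Agent.Results.MP_d24c19_al.LinearPathsCycles
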